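import Mathlib
import Pool.Agent.Work.MP_2d9442_nt.AS.EveryN

/-!
Q1 at logarithmically almost all scales, uniformly in the sequence; for EVERY `N` it holds at
some scale within a bounded factor below `N`.
-/

set_option autoImplicit false

namespace Pool.Agent.Results.MP_2d9442_nt.AlmostAllScales

open Classical in
theorem result :
    (∀ K ε : ℝ, 0 < ε → ∃ W₀ Y₀ : ℕ, ∀ W Y : ℕ, W₀ ≤ W → Y₀ ≤ Y → ∀ z : ℕ → ℂ,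
      (∀ n : ℕ, 1 ≤ n → ‖z n‖ = 1) →
      (∀ m n : ℕ, 1 ≤ m → 1 ≤ n → z (m * n) = z m * z n) →
        ∑ N ∈ (Finset.Ioc Y (W * Y)).filter (fun N : ℕ =>
          (∑ n ∈ Finset.Icc 1 N, ‖∑ i ∈ Finset.Icc 1 n, z i‖ ^ 2) / (N : ℝ) ≤ K),
            1 / (N : ℝ) ≤ ε * Real.log W) ∧
    (∃ ω : ℕ → ℝ, Filter.Tendsto ω Filter.atTop Filter.atTop ∧
      ∀ ε : ℝ, 0 < ε → ∃ X₀ : ℕ, ∀ X : ℕ, X₀ ≤ X → ∀ z : ℕ → ℂ,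
        (∀ n : ℕ, 1 ≤ n → ‖z n‖ = 1) →
        (∀ m n : ℕ, 1 ≤ m → 1 ≤ n → z (m * n) = z m * z n) →
          ∑ N ∈ (Finset.Icc 1 X).filter (fun N : ℕ =>
            (∑ n ∈ Finset.Icc 1 N, ‖∑ i ∈ Finset.Icc 1 n, z i‖ ^ 2) / (N : ℝ) < ω N),
              1 / (N : ℝ) ≤ ε * Real.log X) ∧
    (∀ K : ℝ, ∃ W N₀ : ℕ, ∀ N : ℕ, N₀ ≤ N → ∀ z : ℕ → ℂ,
      (∀ n : ℕ, 1 ≤ n → ‖z n‖ = 1) →
      (∀ m n : ℕ, 1 ≤ m → 1 ≤ n → z (m * n) = z m * z n) →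
        ∃ M : ℕ, N ≤ W * M ∧ M ≤ N ∧
          K < (∑ n ∈ Finset.Icc 1 M, ‖∑ i ∈ Finset.Icc 1 n, z i‖ ^ 2) / (M : ℝ)) :=
  ⟨Pool.Agent.Work.MP_2d9442_nt.AS.top.1, Pool.Agent.Work.MP_2d9442_nt.AS.top.2,
    Pool.Agent.Work.MP_2d9442_nt.AS.every_N⟩

end Pool.Agent.Results.MP_2d9442_nt.AlmostAllScales
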