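import Mathlib
import Pool.Agent.Work.MP_2d9442_nt.Main

/-!
The structured case of the question: completely multiplicative unimodular sequences which correlate
at the scale `N` with some `n^{it} e(n θ)`, `|t| ≤ B N`, have mean square partial sums at least
`c log log N`.
-/

set_option autoImplicit false

namespace Pool.Agent.Results.MP_2d9442_nt.StructuredCase

theorem result (δ B : ℝ) (hδ : 0 < δ) (hB : 0 < B) :
    ∃ c : ℝ, 0 < c ∧ ∃ N₀ : ℕ, ∀ N : ℕ, N₀ ≤ N → ∀ z : ℕ → ℂ,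
      (∀ n : ℕ, 1 ≤ n → ‖z n‖ = 1) →
      (∀ m n : ℕ, 1 ≤ m → 1 ≤ n → z (m * n) = z m * z n) →
      ∀ t θ : ℝ, |t| ≤ B * N →
        δ * N ≤ ‖∑ n ∈ Finset.Icc 1 N, z n * (n : ℂ) ^ (-((t : ℂ) * Complex.I)) *
          Complex.exp (2 * Real.pi * (n * θ : ℝ) * Complex.I)‖ →
        c * Real.log (Real.log N) ≤
          (∑ n ∈ Finset.Icc 1 N, ‖∑ i ∈ Finset.Icc 1 n, z i‖ ^ 2) / (N : ℝ) :=
  Pool.Agent.Work.MP_2d9442_nt.main hδ hB

end Pool.Agent.Results.MP_2d9442_nt.StructuredCase
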